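import Mathlib
import Pool.Agent.H749Z.Loop.Defs
import Pool.Agent.H749Z.Loop.Main

set_option autoImplicit false

namespace Pool.Agent.Results.MP_543b9c_al.ANoBound

open H749Z.LP

/-- For every `k ≥ 3` there is a loop of order `2 ^ k` whose central nilpotence class is `2` and
whose supernilpotence class is exactly `k`. So the supernilpotence class of a supernilpotent loop
is not bounded by any function of its central nilpotence class. -/
theorem result (k : ℕ) (hk : 3 ≤ k) :
    ∃ (Q : Type) (_ : Loop Q), Nat.card Q = 2 ^ k ∧ clCn Q = 2 ∧ clSn Q = k :=
  main k hk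

end Pool.Agent.Results.MP_543b9c_al.ANoBound
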